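import Pool.Agent.EFA.Stmts

set_option autoImplicit false

/-!
# Squad EFA, row COD: the image of an r.e. set under a sparse computable sequence
-/

namespace Pool.Agent.EFA.H23

open Pool.Agent.Helper25TD

/-- the `k ≤ z` with `r k = z`, if there is one -/
def inv (r : ℕ → ℕ) (z : ℕ) : ℕ :=
  Nat.rec (motive := fun _ => ℕ) 0 (fun k acc => bif (r k == z) then k else acc) (z + 1)

theorem inv_comp {r : ℕ → ℕ} (hr : Computable r) : Computable (inv r) := by
  have h1 : Computable fun z : ℕ => z + 1 := Computable.succ
  have h2 : Computable fun _ : ℕ => (0 : ℕ) := Computable.const 0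
  have h3 : Computable₂ fun (z : ℕ) (p : ℕ × ℕ) => bif (r p.1 == z) then p.1 else p.2 := by
    have h4 : Computable fun q : ℕ × (ℕ × ℕ) => (r q.2.1 == q.1) :=
      Primrec.beq.to_comp.comp (hr.comp (Computable.fst.comp Computable.snd)) Computable.fst
    exact Computable.cond h4 (Computable.fst.comp Computable.snd)
      (Computable.snd.comp Computable.snd)
  exact Computable.nat_rec h1 h2 h3

theorem inv_aux {r : ℕ → ℕ} (hinj : Function.Injective r) (x : ℕ) : ∀ n, x < n →
    Nat.rec (motive := fun _ => ℕ) 0 (fun k acc => bif (r k == r x) then k else acc) n = x := by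
  intro n
  induction n with
  | zero => intro h; exact absurd h (Nat.not_lt_zero x)
  | succ n ih =>
    intro h
    change (bif (r n == r x) then n else _) = x
    by_cases hn : n = x
    · subst hn
      simp
    · have h1 : r n ≠ r x := fun h2 => hn (hinj h2)
      have h2 : (r n == r x) = false := beq_eq_false_iff_ne.2 h1
      rw [h2]
      exact ih (by omega)

theorem inv_eq {r : ℕ → ℕ} (hinj : Function.Injective r) (hle : ∀ x, x ≤ r x) (x : ℕ) :
    inv r (r x) = x :=
  inv_aux hinj x (r x + 1) (Nat.lt_succ_of_le (hle x))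

theorem tr_comp {x : ℕ → Bool} {g : ℕ → ℕ} (hg : Computable g) : TR x g :=
  Nat.Partrec.recursiveIn (Partrec.nat_iff.1 hg)

theorem tr_self (A : ℕ → Prop) : TR (bo A) fun n => (bo A n).toNat :=
  TR.of_le (TLE.refl _)

theorem cod : CodStmt := by
  intro r hr hgap A hA
  have hmono : StrictMono r := strictMono_nat_of_lt_succ fun k => by
    have := hgap k
    omega
  have hinj : Function.Injective r := hmono.injective
  have hle : ∀ x, x ≤ r x := fun x => hmono.le_apply
  have hi := inv_comp hr
  have hiff : ∀ z, (∃ x, A x ∧ r x = z) ↔ (r (inv r z) = z ∧ A (inv r z)) := by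
    intro z
    constructor
    · rintro ⟨x, hx, rfl⟩
      rw [inv_eq hinj hle]
      exact ⟨rfl, hx⟩
    · rintro ⟨h1, h2⟩
      exact ⟨_, h2, h1⟩
  have hc : Computable fun z : ℕ => (r (inv r z) == z) :=
    Primrec.beq.to_comp.comp (hr.comp hi) Computable.id
  refine ⟨?_, ?_, ?_⟩
  · have h1 : Partrec fun z => Part.assert (A (inv r z)) fun _ => Part.some () := hA.comp hi
    have h2 : Partrec fun z : ℕ => bif (r (inv r z) == z) then
        (Part.assert (A (inv r z)) fun _ => Part.some ()) else (Part.none : Part Unit) :=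
      Partrec.cond hc h1 Partrec.none
    refine h2.of_eq fun z => ?_
    by_cases h3 : r (inv r z) = z
    · have h4 : (r (inv r z) == z) = true := beq_iff_eq.2 h3
      rw [h4]
      have h5 : A (inv r z) ↔ ∃ x, A x ∧ r x = z := by
        rw [hiff]
        exact ⟨fun h => ⟨h3, h⟩, fun h => h.2⟩
      rw [cond_true, propext h5]
    · have h4 : (r (inv r z) == z) = false := beq_eq_false_iff_ne.2 h3
      rw [h4]
      have h5 : ¬ ∃ x, A x ∧ r x = z := by
        rw [hiff]
        exact fun h => h3 h.1
      rw [Part.assert_neg h5]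
      rfl
  · refine TR.to_le ?_
    have h1 := (tr_self fun z => ∃ x, A x ∧ r x = z).comp (tr_comp hr)
    refine Nat.RecursiveIn.of_eq h1 fun n => ?_
    have h2 : bo (fun z => ∃ x, A x ∧ r x = z) (r n) = bo A n := by
      classical
      unfold bo
      rw [decide_eq_decide]
      constructor
      · rintro ⟨x, hx, h⟩
        rwa [← hinj h]
      · intro h
        exact ⟨n, h, rfl⟩
    simp only [h2]
  · refine TR.to_le ?_
    have h1 : TR (bo A) fun z => (r (inv r z) == z).toNat := by
      have h3 : Computable fun z : ℕ => (r (inv r z) == z).toNat :=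
        (Primrec.dom_bool Bool.toNat).to_comp.comp hc
      exact tr_comp h3
    have h2 : TR (bo A) fun z => (bo A (inv r z)).toNat := (tr_self A).comp (tr_comp hi)
    have h3 : TR (bo A) fun n => (Nat.unpair n).1 * (Nat.unpair n).2 :=
      TR.prim (Primrec.nat_mul.comp (Primrec.fst.comp Primrec.unpair)
        (Primrec.snd.comp Primrec.unpair))
    have h4 := h3.comp (h1.pair h2)
    refine Nat.RecursiveIn.of_eq h4 fun z => ?_
    have h5 : bo (fun z => ∃ x, A x ∧ r x = z) z = ((r (inv r z) == z) && bo A (inv r z)) := by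
      classical
      by_cases h6 : r (inv r z) = z
      · have h7 : (r (inv r z) == z) = true := beq_iff_eq.2 h6
        rw [h7, Bool.true_and]
        unfold bo
        rw [decide_eq_decide]
        exact ⟨fun h => ((hiff z).1 h).2, fun h => (hiff z).2 ⟨h6, h⟩⟩
      · have h7 : (r (inv r z) == z) = false := beq_eq_false_iff_ne.2 h6
        rw [h7, Bool.false_and]
        unfold bo
        rw [decide_eq_false_iff_not]
        exact fun h => h6 ((hiff z).1 h).1
    simp only [h5, Nat.unpair_pair]
    cases (r (inv r z) == z) <;> cases bo A (inv r z) <;> rfl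

end Pool.Agent.EFA.H23
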